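import Pool.Agent.Q95.AP.Main
namespace Pool.Agent.Q95.AP
open Finset

/-- fast divisor sum -/
def sg (k : ℕ) : ℕ → ℕ
  | 0 => 0
  | j + 1 => bif Nat.beq (k % (j + 1)) 0 then sg k j + (j + 1) else sg k j

theorem sg_eq (k j : ℕ) : sg k j = ∑ i ∈ range j, if (i + 1) ∣ k then i + 1 else 0 := by
  induction j with
  | zero => rfl
  | succ j ih =>
    rw [Finset.sum_range_succ, ← ih, sg]
    by_cases h : (j + 1) ∣ k
    · have : Nat.beq (k % (j + 1)) 0 = true := by
        rw [Nat.beq_eq]; exact Nat.mod_eq_zero_of_dvd h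
      rw [this, if_pos h]; rfl
    · have : Nat.beq (k % (j + 1)) 0 = false := by
        cases hb : Nat.beq (k % (j + 1)) 0 with
        | false => rfl
        | true => exact absurd (Nat.dvd_of_mod_eq_zero (Nat.eq_of_beq_eq_true hb)) h
      rw [this, if_neg h]; rfl

theorem sg_self (k : ℕ) : sg k k = sig k := by
  rw [sg_eq]
  unfold sig Nat.divisors
  rw [Finset.sum_filter]
  rw [Finset.sum_Ico_eq_sum_range]
  apply Finset.sum_congr (by simp)
  intro i _
  rw [add_comm 1 i]

/-- check all `k < b` -/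
def chk : ℕ → Bool
  | 0 => true
  | b + 1 => (bif Nat.beq (sg b b + 1) (2 * b) then Nat.beq b (2 ^ (Nat.log2 b)) else true) && chk b

theorem chk_spec (b : ℕ) (h : chk b = true) : ∀ k < b, sig k + 1 = 2 * k → k = 2 ^ (Nat.log2 k) := by
  induction b with
  | zero => intro k hk; omega
  | succ b ih =>
    rw [chk, Bool.and_eq_true] at h
    intro k hk hs
    rcases Nat.lt_succ_iff_lt_or_eq.mp hk with h1 | h1
    · exact ih h.2 k h1 hs
    · subst h1
      have h2 : Nat.beq (sg k k + 1) (2 * k) = true := by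
        rw [Nat.beq_eq, sg_self]; exact hs
      have h3 := h.1
      rw [h2] at h3
      exact Nat.eq_of_beq_eq_true h3

set_option maxRecDepth 100000 in
theorem chk_ok : chk 512 = true := by decide +kernel

end Pool.Agent.Q95.AP
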