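import Mathlib

/-! Deficient multipliers: shared lemmas. -/

namespace Pool.Agent.Q95.AP

open Finset
open scoped Pointwise

/-- sum of the positive divisors -/
def sig (m : ℕ) : ℕ := ∑ d ∈ m.divisors, d

/-- the multipliers: `k ≥ 1`, `k` deficient, `k n` non-deficient -/
def mult (n : ℕ) : Set ℕ := {k | 1 ≤ k ∧ sig k < 2 * k ∧ 2 * (k * n) ≤ sig (k * n)}

/-- the least deficient `k` with `k n` non-deficient -/
noncomputable def a (n : ℕ) : ℕ := sInf (mult n)

theorem sig_mul_le (k n : ℕ) : sig (k * n) ≤ sig k * sig n := by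
  unfold sig
  rw [Nat.divisors_mul, Finset.sum_mul_sum, ← Finset.sum_product']
  have : k.divisors * n.divisors = (k.divisors ×ˢ n.divisors).image (fun x => x.1 * x.2) := rfl
  rw [this]
  exact Finset.sum_image_le_of_nonneg (f := fun x : ℕ => x) (fun _ _ => Nat.zero_le _)

theorem sig_mul {k n : ℕ} (h : k.Coprime n) : sig (k * n) = sig k * sig n :=
  h.sum_divisors_mul

theorem sig_two_pow (j : ℕ) : sig (2 ^ j) + 1 = 2 ^ (j + 1) := by
  unfold sig
  rw [Nat.sum_divisors_prime_pow Nat.prime_two, Nat.geomSum_eq le_rfl]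
  have : 1 ≤ 2 ^ (j + 1) := Nat.one_le_two_pow
  omega

theorem sig_pos {n : ℕ} (hn : 1 ≤ n) : 1 ≤ sig n := by
  unfold sig
  calc 1 ≤ n := hn
    _ ≤ ∑ d ∈ n.divisors, d := Finset.single_le_sum (f := fun d => d) (fun _ _ => Nat.zero_le _)
        (Nat.mem_divisors_self n (by omega))

/-- lower bound from a list of divisors -/
theorem le_sig_of_subset {n : ℕ} {s : Finset ℕ} (h : s ⊆ n.divisors) : ∑ d ∈ s, d ≤ sig n :=
  Finset.sum_le_sum_of_subset h

theorem succ_le_sig {n : ℕ} (hn : 2 ≤ n) : n + 1 ≤ sig n := by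
  have h : ({n, 1} : Finset ℕ) ⊆ n.divisors := by
    intro x hx
    simp only [Finset.mem_insert, Finset.mem_singleton] at hx
    rcases hx with rfl | rfl
    · exact Nat.mem_divisors_self _ (by omega)
    · exact Nat.one_mem_divisors.mpr (by omega)
  have := le_sig_of_subset h
  rwa [Finset.sum_pair (by omega)] at this

theorem sig_two_pow_mul {n : ℕ} (hn : Odd n) (j : ℕ) :
    sig (2 ^ j * n) + sig n = 2 ^ (j + 1) * sig n := by
  have h : (2 ^ j).Coprime n := Nat.Coprime.pow_left j (Nat.coprime_two_left.mpr hn)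
  rw [sig_mul h, ← sig_two_pow j]
  ring

/-- `2^j` is a multiplier for odd `n` exactly under an inequality -/
theorem two_pow_mem {n : ℕ} (hn : Odd n) (j : ℕ) :
    2 ^ j ∈ mult n ↔ 2 ^ (j + 1) * n + sig n ≤ 2 ^ (j + 1) * sig n := by
  have h1 := sig_two_pow_mul hn j
  have h2 := sig_two_pow j
  have h3 : 1 ≤ 2 ^ j := Nat.one_le_two_pow
  have h4 : (2 : ℕ) ^ (j + 1) = 2 * 2 ^ j := by ring
  unfold mult
  simp only [Set.mem_ofPred_eq]
  constructor
  · rintro ⟨_, _, h⟩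
    rw [h4] at h1 ⊢
    nlinarith
  · intro h
    refine ⟨h3, by omega, ?_⟩
    rw [h4] at h1 h
    nlinarith

theorem mult_nonempty_odd {n : ℕ} (hn : Odd n) (h2 : 2 ≤ n) : (mult n).Nonempty := by
  refine ⟨2 ^ n, (two_pow_mem hn n).mpr ?_⟩
  have h1 := succ_le_sig h2
  have h3 : n + 1 ≤ 2 ^ (n + 1) := (Nat.lt_two_pow_self (n := n + 1)).le
  obtain ⟨t, ht⟩ := Nat.exists_eq_add_of_le h1
  obtain ⟨u, hu⟩ := Nat.exists_eq_add_of_le h3
  rw [ht, hu]
  nlinarith [Nat.zero_le (t * u), Nat.zero_le (n * t), Nat.zero_le u, Nat.zero_le t]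

/-- the core: an odd number's least multiplier is a power of two or almost perfect -/
theorem core_odd {n k : ℕ} (hn : Odd n) (hk : k ∈ mult n)
    (hmin : ∀ i, 2 ^ i < k → 2 ^ i ∉ mult n) : (∃ i, k = 2 ^ i) ∨ sig k + 1 = 2 * k := by
  obtain ⟨k1, k2, k3⟩ := hk
  set i := Nat.log 2 k with hi
  have l1 : 2 ^ i ≤ k := Nat.pow_log_le_self 2 (by omega)
  have l2 : k < 2 ^ (i + 1) := Nat.lt_pow_succ_log_self (by norm_num) k
  rcases Nat.eq_or_lt_of_le l1 with h | h
  · exact Or.inl ⟨i, h.symm⟩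
  right
  by_contra hne
  have hs : sig k + 2 ≤ 2 * k := by omega
  have hA := hmin i h
  rw [two_pow_mem hn] at hA
  have hA : 2 ^ (i + 1) * sig n + 1 ≤ 2 ^ (i + 1) * n + sig n := by omega
  have hB : 2 * (k * n) ≤ sig k * sig n := k3.trans (sig_mul_le k n)
  -- (k-1) * sig n ≥ k n
  have hC : k * n + sig n ≤ k * sig n := by nlinarith [Nat.zero_le (sig n)]
  -- contradiction
  have hn1 : 1 ≤ n := hn.pos
  have hS : 1 ≤ sig n := sig_pos hn1
  have e1 := Nat.mul_le_mul_left (2 ^ (i + 1)) hC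
  have e2 := Nat.mul_le_mul_left k hA
  have e3 := Nat.mul_le_mul_right (sig n) l2.le
  nlinarith

end Pool.Agent.Q95.AP
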