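import Pool.Agent.Q95.AP.Main

namespace Pool.Agent.Q95.AP

open Finset

/-- if `2^i` is not a multiplier of the odd number `n`, all prime factors of `n` are large -/
theorem prime_factor_large {n i p : ℕ} (hn : Odd n) (hi : 2 ^ i ∉ mult n) (hp : p.Prime)
    (hd : p ∣ n) : 2 ^ (i + 1) ≤ p := by
  rw [two_pow_mem hn] at hi
  have hA : 2 ^ (i + 1) * sig n + 1 ≤ 2 ^ (i + 1) * n + sig n := by omega
  obtain ⟨t, rfl⟩ := hd
  have ht : 1 ≤ t := by
    rcases Nat.eq_zero_or_pos t with h | h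
    · subst h; simp at hn
    · exact h
  have hp2 := hp.two_le
  have hs : ({p * t, t} : Finset ℕ) ⊆ (p * t).divisors := by
    intro x hx
    simp only [Finset.mem_insert, Finset.mem_singleton] at hx
    rw [Nat.mem_divisors]
    refine ⟨?_, by positivity⟩
    rcases hx with rfl | rfl
    · exact dvd_rfl
    · exact ⟨p, by ring⟩
  have hS := le_sig_of_subset hs
  have hne : p * t ≠ t := by nlinarith
  rw [Finset.sum_pair hne] at hS
  by_contra hlt
  push Not at hlt
  obtain ⟨u, hu⟩ := Nat.exists_eq_add_of_le hS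
  rw [hu] at hA
  obtain ⟨v, hv⟩ := Nat.exists_eq_add_of_lt hlt
  rw [hv] at hA
  nlinarith [Nat.zero_le (v * u), Nat.zero_le (p * u), Nat.zero_le (v * t)]

theorem exceptional {n : ℕ} (h2 : 2 ≤ n) (h : ¬ (a n = 3 ∨ ∃ j, a n = 2 ^ j)) :
    sig (a n) + 1 = 2 * a n ∧ ∀ p, p.Prime → p ∣ n → a n < p := by
  push Not at h
  rcases a_cases h2 with h' | ⟨j, h'⟩ | ⟨ho, h'⟩
  · exact absurd h' h.1
  · exact absurd h' (h.2 j)
  · refine ⟨h', ?_⟩
    intro p hp hd
    set i := Nat.log 2 (a n) with hi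
    have h1 := (a_mem h2).1
    have l1 : 2 ^ i ≤ a n := Nat.pow_log_le_self 2 (by omega)
    have l2 : a n < 2 ^ (i + 1) := Nat.lt_pow_succ_log_self (by norm_num) _
    have l3 : 2 ^ i < a n := lt_of_le_of_ne l1 (fun h'' => h.2 i h''.symm)
    exact l2.trans_le (prime_factor_large ho (not_mem_of_lt l3) hp hd)

/-- the least prime above `2^m` -/
noncomputable def pm (m : ℕ) : ℕ := sInf {q | q.Prime ∧ 2 ^ m < q}

theorem pm_spec (m : ℕ) : (pm m).Prime ∧ 2 ^ m < pm m := by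
  have : {q | q.Prime ∧ 2 ^ m < q}.Nonempty := by
    obtain ⟨q, h1, h2⟩ := Nat.exists_infinite_primes (2 ^ m + 1)
    exact ⟨q, h2, h1⟩
  exact Nat.sInf_mem this

theorem pm_le {m q : ℕ} (h1 : q.Prime) (h2 : 2 ^ m < q) : pm m ≤ q := Nat.sInf_le ⟨h1, h2⟩

theorem pm_lt (m : ℕ) (hm : 1 ≤ m) : pm m < 2 ^ (m + 1) := by
  obtain ⟨q, hq, h1, h2⟩ := Nat.exists_prime_lt_and_le_two_mul (2 ^ m) (by positivity)
  have h3 := pm_le hq h1
  rcases Nat.lt_or_ge q (2 ^ (m + 1)) with h | h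
  · omega
  · exfalso
    have : q = 2 ^ (m + 1) := by
      have : 2 * 2 ^ m = 2 ^ (m + 1) := by ring
      omega
    rw [this] at hq
    exact (Nat.Prime.not_prime_pow (by omega)) hq

theorem sig_prime {p : ℕ} (hp : p.Prime) : sig p = p + 1 := by
  unfold sig
  rw [Nat.Prime.sum_divisors hp]

theorem pm_odd (m : ℕ) (hm : 1 ≤ m) : Odd (pm m) := by
  refine (pm_spec m).1.odd_of_ne_two ?_
  have h1 := (pm_spec m).2
  have h2 : 2 ^ 1 ≤ 2 ^ m := Nat.pow_le_pow_right (by norm_num) hm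
  omega

/-- first half: no smaller `n` has `a n = 2^m` -/
theorem no_smaller {m n : ℕ} (hm : 1 ≤ m) (h2 : 2 ≤ n) (hn : n < pm m) : a n ≠ 2 ^ m := by
  intro h
  have hP : 2 ^ 1 ≤ 2 ^ m := Nat.pow_le_pow_right (by norm_num) hm
  rcases Nat.even_or_odd n with he | ho
  · have h3 := a_even he h2
    have hm1 : m = 1 := by
      by_contra hne
      have : 2 ^ 2 ≤ 2 ^ m := Nat.pow_le_pow_right (by norm_num) (by omega)
      omega
    subst hm1
    have hp3 : pm 1 ≤ 3 := pm_le (by norm_num) (by norm_num)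
    have hn2 : n = 2 := by omega
    subst hn2
    have := a_mem (n := 2) le_rfl
    rw [h] at this
    obtain ⟨_, _, h5⟩ := this
    have h6 : sig (2 ^ 1 * 2) = 7 := by decide
    omega
  · have hlt : 2 ^ (m - 1) < a n := by
      rw [h]
      exact Nat.pow_lt_pow_right (by norm_num) (by omega)
    obtain ⟨q, hq, hd⟩ := Nat.exists_prime_and_dvd (n := n) (by omega)
    have h3 := prime_factor_large ho (not_mem_of_lt hlt) hq hd
    have h4 : m - 1 + 1 = m := by omega
    rw [h4] at h3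
    have h5 : q ≠ 2 ^ m := by
      intro h6
      have : Odd q := ho.of_dvd_nat hd
      rw [h6] at this
      have he : Even (2 ^ m) := (Nat.even_pow.mpr ⟨even_two, by omega⟩)
      exact (Nat.not_even_iff_odd.mpr this) he
    have h6 := pm_le hq (by omega : 2 ^ m < q)
    have h7 := Nat.le_of_dvd (by omega) hd
    omega

theorem two_pow_mem_pm {m : ℕ} (hm : 1 ≤ m) : 2 ^ m ∈ mult (pm m) := by
  rw [two_pow_mem (pm_odd m hm), sig_prime (pm_spec m).1]
  have := pm_lt m hm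
  nlinarith

theorem two_pow_not_mem_pm {m j : ℕ} (hm : 1 ≤ m) (hj : j < m) : 2 ^ j ∉ mult (pm m) := by
  rw [two_pow_mem (pm_odd m hm), sig_prime (pm_spec m).1]
  have h1 := (pm_spec m).2
  have h2 : 2 ^ (j + 1) ≤ 2 ^ m := Nat.pow_le_pow_right (by norm_num) (by omega)
  intro h
  nlinarith

theorem a_pm_iff {m : ℕ} (hm : 1 ≤ m) :
    a (pm m) = 2 ^ m ↔ ¬ ∃ k, sig k + 1 = 2 * k ∧ pm m + 1 ≤ 2 * k ∧ k < 2 ^ m := by
  have hp := (pm_spec m).1
  have hp1 := (pm_spec m).2
  have hp2 := hp.two_le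
  constructor
  · rintro h ⟨k, h1, h3, h4⟩
    have hk : k ∈ mult (pm m) := by
      refine ⟨by omega, by omega, ?_⟩
      have hc : k.Coprime (pm m) := by
        rw [Nat.coprime_comm, hp.coprime_iff_not_dvd]
        intro hd
        have := Nat.le_of_dvd (by omega) hd
        omega
      rw [sig_mul hc, sig_prime hp]
      have : sig k = 2 * k - 1 := by omega
      obtain ⟨t, ht⟩ := Nat.exists_eq_add_of_le (by omega : 1 ≤ 2 * k)
      have h5 : sig k = t := by omega
      rw [h5]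
      nlinarith
    have := a_le hk
    omega
  · intro h
    by_contra hne
    apply h
    have hle := a_le (two_pow_mem_pm hm)
    have hlt : a (pm m) < 2 ^ m := lt_of_le_of_ne hle hne
    have hmem := a_mem hp2
    rcases a_odd (pm_odd m hm) hp2 with ⟨j, hj⟩ | hap
    · exfalso
      have hjm : j < m := by
        rw [hj] at hlt
        exact (Nat.pow_lt_pow_iff_right (by norm_num)).mp hlt
      exact two_pow_not_mem_pm hm hjm (hj ▸ hmem)
    · refine ⟨a (pm m), hap, ?_, hlt⟩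
      have h3 := hmem.2.2.trans (sig_mul_le _ _)
      rw [sig_prime hp] at h3
      obtain ⟨t, ht⟩ := Nat.exists_eq_add_of_le (by omega : 1 ≤ 2 * a (pm m))
      have h5 : sig (a (pm m)) = t := by omega
      rw [h5] at h3
      nlinarith

theorem a_pm_ne {m : ℕ} (hm : 1 ≤ m) (hne : a (pm m) ≠ 2 ^ m) :
    sig (a (pm m)) + 1 = 2 * a (pm m) ∧ pm m + 1 ≤ 2 * a (pm m) ∧ a (pm m) < 2 ^ m := by
  have hp := (pm_spec m).1
  have hp1 := (pm_spec m).2
  have hp2 := hp.two_le
  have hle := a_le (two_pow_mem_pm hm)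
  have hlt : a (pm m) < 2 ^ m := lt_of_le_of_ne hle hne
  have hmem := a_mem hp2
  rcases a_odd (pm_odd m hm) hp2 with ⟨j, hj⟩ | hap
  · exfalso
    have hjm : j < m := by
      rw [hj] at hlt
      exact (Nat.pow_lt_pow_iff_right (by norm_num)).mp hlt
    exact two_pow_not_mem_pm hm hjm (hj ▸ hmem)
  · refine ⟨hap, ?_, hlt⟩
    have h3 := hmem.2.2.trans (sig_mul_le _ _)
    rw [sig_prime hp] at h3
    obtain ⟨t, ht⟩ := Nat.exists_eq_add_of_le (by omega : 1 ≤ 2 * a (pm m))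
    have h5 : sig (a (pm m)) = t := by omega
    rw [h5] at h3
    nlinarith

theorem least_iff {m : ℕ} (hm : 1 ≤ m) :
    IsLeast {n | 2 ≤ n ∧ a n = 2 ^ m} (pm m) ↔
      ¬ ∃ k, sig k + 1 = 2 * k ∧ pm m + 1 ≤ 2 * k ∧ k < 2 ^ m := by
  rw [← a_pm_iff hm]
  constructor
  · intro h; exact h.1.2
  · intro h
    refine ⟨⟨(pm_spec m).1.two_le, h⟩, ?_⟩
    rintro n ⟨h1, h2⟩
    by_contra hlt
    exact no_smaller hm h1 (by omega) h2

end Pool.Agent.Q95.AP
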