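import Pool.Agent.Q95.AP.Core

namespace Pool.Agent.Q95.AP

open Finset

theorem sig_three : sig 3 = 4 := by decide

theorem sig_two : sig 2 = 3 := by decide

theorem sig_one : sig 1 = 1 := by decide

/-- even numbers: some multiplier is at most three -/
theorem even_mult {n : ℕ} (hn : Even n) (h2 : 2 ≤ n) : ∃ k ∈ mult n, k ≤ 3 := by
  obtain ⟨t, rfl⟩ := hn
  have ht : 1 ≤ t := by omega
  by_cases h3 : 3 ∣ t + t
  · refine ⟨1, ⟨le_rfl, by rw [sig_one]; norm_num, ?_⟩, by norm_num⟩
    have h3' : 3 ∣ t := by omega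
    obtain ⟨u, rfl⟩ := h3'
    have hu : 1 ≤ u := by omega
    have hs : ({6 * u, 3 * u, 2 * u, u} : Finset ℕ) ⊆ (3 * u + 3 * u).divisors := by
      intro x hx
      simp only [Finset.mem_insert, Finset.mem_singleton] at hx
      rw [Nat.mem_divisors]
      refine ⟨?_, by omega⟩
      rcases hx with rfl | rfl | rfl | rfl
      · exact ⟨1, by ring⟩
      · exact ⟨2, by ring⟩
      · exact ⟨3, by ring⟩
      · exact ⟨6, by ring⟩
    have := le_sig_of_subset hs
    rw [Finset.sum_insert, Finset.sum_insert, Finset.sum_insert, Finset.sum_singleton] at this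
    · rw [one_mul]; omega
    · simp; omega
    · simp; omega
    · simp; omega
  · refine ⟨3, ⟨by norm_num, by rw [sig_three]; norm_num, ?_⟩, le_rfl⟩
    have hc : Nat.Coprime 3 (t + t) := (Nat.Prime.coprime_iff_not_dvd Nat.prime_three).mpr h3
    rw [sig_mul hc, sig_three]
    have hs : ({t + t, t} : Finset ℕ) ⊆ (t + t).divisors := by
      intro x hx
      simp only [Finset.mem_insert, Finset.mem_singleton] at hx
      rw [Nat.mem_divisors]
      refine ⟨?_, by omega⟩
      rcases hx with rfl | rfl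
      · exact dvd_rfl
      · exact ⟨2, by ring⟩
    have := le_sig_of_subset hs
    rw [Finset.sum_pair (by omega)] at this
    omega

theorem mult_nonempty {n : ℕ} (h2 : 2 ≤ n) : (mult n).Nonempty := by
  rcases Nat.even_or_odd n with h | h
  · obtain ⟨k, hk, _⟩ := even_mult h h2
    exact ⟨k, hk⟩
  · exact mult_nonempty_odd h h2

theorem a_mem {n : ℕ} (h2 : 2 ≤ n) : a n ∈ mult n := Nat.sInf_mem (mult_nonempty h2)

theorem a_le {n k : ℕ} (h : k ∈ mult n) : a n ≤ k := Nat.sInf_le h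

theorem not_mem_of_lt {n k : ℕ} (h : k < a n) : k ∉ mult n := Nat.notMem_of_lt_sInf h

theorem a_even {n : ℕ} (hn : Even n) (h2 : 2 ≤ n) : a n = 1 ∨ a n = 2 ∨ a n = 3 := by
  obtain ⟨k, hk, hk3⟩ := even_mult hn h2
  have h1 := a_le hk
  have h3 := (a_mem h2).1
  omega

theorem a_odd {n : ℕ} (hn : Odd n) (h2 : 2 ≤ n) :
    (∃ i, a n = 2 ^ i) ∨ sig (a n) + 1 = 2 * a n :=
  core_odd hn (a_mem h2) (fun _ hi => not_mem_of_lt hi)

/-- trichotomy -/
theorem a_cases {n : ℕ} (h2 : 2 ≤ n) :
    a n = 3 ∨ (∃ i, a n = 2 ^ i) ∨ (Odd n ∧ sig (a n) + 1 = 2 * a n) := by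
  rcases Nat.even_or_odd n with h | h
  · rcases a_even h h2 with h | h | h
    · exact Or.inr (Or.inl ⟨0, by simpa using h⟩)
    · exact Or.inr (Or.inl ⟨1, by simpa using h⟩)
    · exact Or.inl h
  · rcases a_odd h h2 with h' | h'
    · exact Or.inr (Or.inl h')
    · exact Or.inr (Or.inr ⟨h, h'⟩)

/-! ### numbers with abundancy in a prescribed interval -/

/-- abundancy index -/
noncomputable def ab (n : ℕ) : ℝ := (sig n : ℝ) / n

/-- product of the primes in `(M, M + r]` -/
def pr (M : ℕ) : ℕ → ℕ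
  | 0 => 1
  | r + 1 => if (M + r + 1).Prime then (M + r + 1) * pr M r else pr M r

theorem pr_pos (M r : ℕ) : 1 ≤ pr M r := by
  induction r with
  | zero => simp [pr]
  | succ r ih =>
    rw [pr]
    split_ifs
    · exact Nat.mul_pos (by omega) ih
    · exact ih

theorem pr_prime {M r q : ℕ} (hq : q.Prime) (h : q ∣ pr M r) : M < q ∧ q ≤ M + r := by
  induction r with
  | zero => simp [pr] at h; exact absurd (h ▸ hq) (by norm_num)
  | succ r ih =>
    rw [pr] at h
    split_ifs at h with hp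
    · rcases (Nat.Prime.dvd_mul hq).mp h with h | h
      · have := (Nat.prime_dvd_prime_iff_eq hq hp).mp h
        omega
      · have := ih h; omega
    · have := ih h; omega

theorem pr_coprime {M k : ℕ} (r : ℕ) (hk : 1 ≤ k) (hM : k ≤ M) : k.Coprime (pr M r) := by
  rw [Nat.coprime_iff_gcd_eq_one]
  by_contra h
  obtain ⟨q, hq, hd⟩ := Nat.exists_prime_and_dvd h
  have h1 := pr_prime hq (hd.trans (Nat.gcd_dvd_right _ _))
  have h2 := Nat.le_of_dvd (by omega) (hd.trans (Nat.gcd_dvd_left _ _))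
  omega

theorem pr_odd {M : ℕ} (r : ℕ) (hM : 2 ≤ M) : Odd (pr M r) :=
  Nat.coprime_two_left.mp (pr_coprime r (by norm_num) hM)

theorem ab_pr_succ (M r : ℕ) : ab (pr M (r + 1)) =
    if (M + r + 1).Prime then (1 + 1 / ((M + r + 1 : ℕ) : ℝ)) * ab (pr M r) else ab (pr M r) := by
  rw [pr]
  split_ifs with hp
  · have hc : (M + r + 1).Coprime (pr M r) := by
      rw [Nat.Prime.coprime_iff_not_dvd hp]
      intro h
      have := pr_prime hp h
      omega
    unfold ab
    rw [sig_mul hc]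
    have h1 : sig (M + r + 1) = M + r + 1 + 1 := by
      unfold sig
      rw [Nat.Prime.sum_divisors hp]
    have h2 : ((M + r + 1 : ℕ) : ℝ) ≠ 0 := by positivity
    have h3 : ((pr M r : ℕ) : ℝ) ≠ 0 := by have := pr_pos M r; positivity
    rw [h1]
    push_cast at h2 ⊢
    field_simp
  · rfl

theorem ab_pr_ge (M r : ℕ) : 1 + ∑ i ∈ range r, ({p | Nat.Prime p}.indicator (fun n : ℕ => 1 / (n : ℝ)) (M + i + 1))
    ≤ ab (pr M r) := by
  induction r with
  | zero => simp [pr, ab, sig_one]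
  | succ r ih =>
    rw [ab_pr_succ, Finset.sum_range_succ]
    have h0 : 0 ≤ ∑ i ∈ range r, ({p | Nat.Prime p}.indicator (fun n : ℕ => 1 / (n : ℝ)) (M + i + 1)) := by
      apply Finset.sum_nonneg
      intro i _
      apply Set.indicator_nonneg
      intro x _
      positivity
    split_ifs with hp
    · have : ({p | Nat.Prime p}.indicator (fun n : ℕ => 1 / (n : ℝ)) (M + r + 1))
          = 1 / ((M + r + 1 : ℕ) : ℝ) := Set.indicator_of_mem (by exact hp) _
      rw [this]
      have hpos : 0 ≤ 1 / ((M + r + 1 : ℕ) : ℝ) := by positivity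
      nlinarith
    · have : ({p | Nat.Prime p}.indicator (fun n : ℕ => 1 / (n : ℝ)) (M + r + 1)) = 0 :=
        Set.indicator_of_notMem (by exact hp) _
      rw [this]; linarith

theorem ab_unbounded (M : ℕ) (C : ℝ) : ∃ r, C ≤ ab (pr M r) := by
  have hns := not_summable_one_div_on_primes
  set f : ℕ → ℝ := {p | Nat.Prime p}.indicator (fun n : ℕ => 1 / (n : ℝ)) with hf
  have hf0 : ∀ n, 0 ≤ f n := by
    intro n
    apply Set.indicator_nonneg
    intro x _
    positivity
  have hns' : ¬ Summable (fun i => f (i + (M + 1))) := by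
    rw [summable_nat_add_iff]
    exact hns
  rw [not_summable_iff_tendsto_nat_atTop_of_nonneg (fun n => hf0 _)] at hns'
  obtain ⟨r, hr⟩ := (hns'.eventually_ge_atTop C).exists
  refine ⟨r, ?_⟩
  have h1 := ab_pr_ge M r
  have h2 : ∑ i ∈ range r, f (M + i + 1) = ∑ i ∈ range r, f (i + (M + 1)) := by
    apply Finset.sum_congr rfl
    intro i _
    congr 1
    ring
  rw [← hf] at h1
  rw [h2] at h1
  linarith

/-- numbers coprime to a given one with abundancy in a prescribed interval -/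
theorem exists_ab {k : ℕ} (hk : 1 ≤ k) {A B : ℝ} (hA : 1 < A) (hAB : A < B) :
    ∃ n, 2 ≤ n ∧ Odd n ∧ k.Coprime n ∧ A ≤ ab n ∧ ab n < B := by
  obtain ⟨M0, hM0⟩ := exists_nat_gt (A / (B - A))
  set M := M0 + k + 2 with hM
  have hex := ab_unbounded M A
  classical
  set r := Nat.find hex with hr
  have hrA : A ≤ ab (pr M r) := Nat.find_spec hex
  have h0 : r ≠ 0 := by
    intro h
    rw [h] at hrA
    simp [pr, ab, sig_one] at hrA
    linarith
  obtain ⟨s, hs⟩ := Nat.exists_eq_succ_of_ne_zero h0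
  have hsA : ab (pr M s) < A := by
    have := Nat.find_min hex (m := s) (by omega)
    linarith [not_le.mp this]
  have hrB : ab (pr M r) < B := by
    rw [hs, ab_pr_succ]
    split_ifs with hp
    · have h1 : (A / (B - A)) < ((M + s + 1 : ℕ) : ℝ) := by
        refine hM0.trans ?_
        exact_mod_cast (by omega : M0 < M + s + 1)
      have hBA : 0 < B - A := by linarith
      have hpos : (0 : ℝ) < ((M + s + 1 : ℕ) : ℝ) := by positivity
      rw [div_lt_iff₀ hBA] at h1
      have h2 : (1 + 1 / ((M + s + 1 : ℕ) : ℝ)) * A < B := by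
        have : (1 + 1 / ((M + s + 1 : ℕ) : ℝ)) * A = A + A / ((M + s + 1 : ℕ) : ℝ) := by ring
        rw [this]
        have : A / ((M + s + 1 : ℕ) : ℝ) < B - A := by
          rw [div_lt_iff₀ hpos]; linarith
        linarith
      refine lt_of_le_of_lt ?_ h2
      apply mul_le_mul_of_nonneg_left hsA.le
      positivity
    · linarith
  refine ⟨pr M r, ?_, pr_odd r (by omega), pr_coprime r hk (by omega), hrA, hrB⟩
  have h1 := pr_pos M r
  by_contra hlt
  have : pr M r = 1 := by omega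
  rw [this] at hrA
  simp [ab, sig_one] at hrA
  linarith

/-- an almost perfect number other than the powers of two gives a counterexample -/
theorem exists_bad {k : ℕ} (hk : 1 ≤ k) (hap : sig k + 1 = 2 * k) (hne : ∀ i, k ≠ 2 ^ i) :
    ∃ n, 2 ≤ n ∧ a n ≠ 3 ∧ ∀ i, a n ≠ 2 ^ i := by
  set i := Nat.log 2 k with hi
  have l1 : 2 ^ i ≤ k := Nat.pow_log_le_self 2 (by omega)
  have l2 : k < 2 ^ (i + 1) := Nat.lt_pow_succ_log_self (by norm_num) k
  have l3 : 2 ^ i < k := lt_of_le_of_ne l1 (fun h => hne i h.symm)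
  have hP : (2 : ℕ) ^ (i + 1) = 2 * 2 ^ i := by ring
  have hP1 : 1 ≤ 2 ^ i := Nat.one_le_two_pow
  -- the interval
  have hk1 : (1 : ℝ) ≤ k := by exact_mod_cast hk
  have hPr : (1 : ℝ) ≤ (2 : ℝ) ^ i := one_le_pow₀ (by norm_num)
  have hPk : (2 : ℝ) ^ i + 1 ≤ k := by exact_mod_cast l3
  have hA : (1 : ℝ) < 2 * k / (2 * k - 1) := by
    rw [lt_div_iff₀ (by linarith)]; linarith
  have hAB : (2 : ℝ) * k / (2 * k - 1) < 2 * 2 ^ i / (2 * 2 ^ i - 1) := by
    rw [div_lt_div_iff₀ (by linarith) (by linarith)]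
    nlinarith
  obtain ⟨n, h2, hodd, hcop, hnA, hnB⟩ := exists_ab hk hA hAB
  have hn0 : (0 : ℝ) < n := by exact_mod_cast (by omega : 0 < n)
  -- k is a multiplier
  have hkm : k ∈ mult n := by
    refine ⟨hk, by omega, ?_⟩
    rw [sig_mul hcop]
    unfold ab at hnA
    rw [div_le_div_iff₀ (by linarith) hn0] at hnA
    have e : (sig k : ℝ) = 2 * k - 1 := by
      have : ((sig k + 1 : ℕ) : ℝ) = ((2 * k : ℕ) : ℝ) := by exact_mod_cast hap
      push_cast at this; linarith
    have : (2 * (k * n) : ℝ) ≤ sig k * sig n := by rw [e]; nlinarith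
    exact_mod_cast this
  -- the powers of two up to k are not
  have hpow : ∀ j, 2 ^ j ≤ k → 2 ^ j ∉ mult n := by
    intro j hj hmem
    rw [two_pow_mem hodd] at hmem
    have hji : j ≤ i := by
      by_contra hc
      have : 2 ^ (i + 1) ≤ 2 ^ j := Nat.pow_le_pow_right (by norm_num) (by omega)
      omega
    have hm : ((2 ^ (j + 1) * n + sig n : ℕ) : ℝ) ≤ ((2 ^ (j + 1) * sig n : ℕ) : ℝ) := by
      exact_mod_cast hmem
    push_cast at hm
    unfold ab at hnB
    rw [div_lt_div_iff₀ hn0 (by linarith)] at hnB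
    have hS : (n : ℝ) ≤ sig n := by
      have := succ_le_sig h2
      exact_mod_cast (by omega : n ≤ sig n)
    have hQ : (2 : ℝ) ^ j ≤ 2 ^ i := pow_le_pow_right₀ (by norm_num) hji
    have : (2 : ℝ) ^ (j + 1) = 2 * 2 ^ j := by ring
    rw [this] at hm
    nlinarith
  have hak : a n ≤ k := a_le hkm
  have hnot : ∀ j, a n ≠ 2 ^ j := by
    intro j hj
    exact hpow j (hj ▸ hak) (hj ▸ a_mem h2)
  refine ⟨n, h2, ?_, hnot⟩
  rcases a_odd hodd h2 with ⟨j, hj⟩ | h
  · exact absurd hj (hnot j)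
  · intro h3
    rw [h3, sig_three] at h
    omega

end Pool.Agent.Q95.AP
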